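import Pool.Agent.Lib.MP_c749e3_al.Defs
import Pool.Agent.Lib.MP_c749e3_al.Theorem

/-!
MP_c749e3_al, Q1, negated form: a simply connected nilpotent Lie group admitting a lattice, for
which the uniform systolic growth is not bounded by the systolic growth.
-/

namespace Pool.Agent.Results.MP_c749e3_al.NotEquivalent

open Pool.Agent.Lib.MP_c749e3_al MeasureTheory
open scoped Manifold ContDiff

/-- There is a simply connected nilpotent (8-dimensional, real, smooth) Lie group `G` admitting a
lattice (and a compact generating set) such that, for every compact generating set `S` and every Haar measure `μ` of `G`,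
the uniform systolic growth `σ^u_G` is not `≼` the systolic growth `σ_G`. -/
theorem result : ∃ (G : Type) (_ : Group G) (_ : TopologicalSpace G)
    (_ : ChartedSpace (Fin 8 → ℝ) G) (_ : LieGroup 𝓘(ℝ, Fin 8 → ℝ) ∞ G)
    (_ : T2Space G) (_ : SecondCountableTopology G) (_ : SimplyConnectedSpace G)
    (_ : MeasurableSpace G) (_ : BorelSpace G),
    Group.IsNilpotent G ∧ (∃ Γ : Subgroup G, IsLattice Γ) ∧
    (∃ S : Set G, IsCompact S ∧ Generates S) ∧
    ∀ S : Set G, IsCompact S → Generates S → ∀ μ : Measure G, μ.IsHaarMeasure →
      ¬ Precedes (sigmaU S μ) (sigma S μ) :=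
  main

end Pool.Agent.Results.MP_c749e3_al.NotEquivalent
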